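import Mathlib
import Pool.Agent.H964.CW.Stm3

/-!
# Project CW (helper964): the first block, part 1: real analysis
-/

set_option autoImplicit false

open MeasureTheory ProbabilityTheory Filter Finset Topology

namespace Pool.Agent.H719.CW

open Pool.Agent.H964.QC Pool.Agent.H964.CW

theorem e0_pos : 0 < e0 := by unfold e0; positivity

/-- the conditions on `z = 1 / s2` -/
structure Sm (K Ct Cb CA z : ℝ) : Prop where
  one : 1 ≤ z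
  pw : z ^ (1 / 20 : ℝ) + 1 ≤ z / 4
  v : 16 * (1 / z * z ^ (1 / 20 : ℝ)) ≤ 1 / 8
  t1 : (K * z ^ (2 / 5 : ℝ)) ^ 2 * (16 * (1 / z * z ^ (1 / 20 : ℝ))) ≤ 1 / 8
  t2 : Ct * Real.exp (-((K * z ^ (2 / 5 : ℝ)) ^ (1 / 20 : ℝ))) ≤ 1 / 8
  g1 : Cb * Real.exp (-((z / 2) ^ e0 / 2)) ≤ (1 / z) ^ (9 / 10 : ℝ) / 2
  g2 : 16 * (1 / z * z ^ (1 / 20 : ℝ)) ≤ (1 / z) ^ (9 / 10 : ℝ) / 2
  g3 : Cb ≤ z / 2
  g4 : Real.exp (-((z / 2) ^ e0 / 4)) ≤ 1 / 2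
  ca : CA ≤ z

theorem eps_eq {z : ℝ} (hz : 0 < z) : 1 / z * z ^ (1 / 20 : ℝ) = z ^ (-(19 / 20) : ℝ) := by
  have h1 : 1 / z = z ^ (-1 : ℝ) := by rw [Real.rpow_neg_one, one_div]
  rw [h1, ← Real.rpow_add hz]
  norm_num

theorem inv_pow {z : ℝ} (hz : 0 < z) (a : ℝ) : (1 / z) ^ a = z ^ (-a) := by
  rw [one_div, Real.inv_rpow hz.le, Real.rpow_neg hz.le]

theorem ev_lt {f : ℝ → ℝ} (h : Tendsto f atTop (𝓝 0)) {c : ℝ} (hc : 0 < c) :
    ∀ᶠ z in atTop, f z ≤ c :=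
  (h.eventually (gt_mem_nhds hc)).mono fun _ h => h.le

theorem exists_sm (K Ct Cb CA : ℝ) (hK : 0 < K) : ∃ C : ℝ, 1 ≤ C ∧
    ∀ z : ℝ, C ≤ z → Sm K Ct Cb CA z := by
  have h64 : ∀ᶠ z : ℝ in atTop, (64 : ℝ) ≤ z := eventually_ge_atTop 64
  have hCA : ∀ᶠ z : ℝ in atTop, CA ≤ z := eventually_ge_atTop CA
  have hCb : ∀ᶠ z : ℝ in atTop, 2 * Cb ≤ z := eventually_ge_atTop (2 * Cb)
  have e19 : ∀ᶠ z : ℝ in atTop, z ^ (-(19 / 20) : ℝ) ≤ 1 / 128 :=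
    ev_lt (tendsto_rpow_neg_atTop (by norm_num)) (by norm_num)
  have e320 : ∀ᶠ z : ℝ in atTop, z ^ (-(3 / 20) : ℝ) ≤ 1 / (128 * K ^ 2) :=
    ev_lt (tendsto_rpow_neg_atTop (by norm_num)) (by positivity)
  have e120 : ∀ᶠ z : ℝ in atTop, z ^ (-(1 / 20) : ℝ) ≤ 1 / 32 :=
    ev_lt (tendsto_rpow_neg_atTop (by norm_num)) (by norm_num)
  have hu : Tendsto (fun z : ℝ => (K * z ^ (2 / 5 : ℝ)) ^ (1 / 20 : ℝ)) atTop atTop :=
    (tendsto_rpow_atTop (by norm_num)).comp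
      ((tendsto_rpow_atTop (by norm_num)).const_mul_atTop hK)
  have hexp : Tendsto (fun z : ℝ => Ct * Real.exp (-((K * z ^ (2 / 5 : ℝ)) ^ (1 / 20 : ℝ))))
      atTop (𝓝 0) := by
    have h1 := (Real.tendsto_exp_neg_atTop_nhds_zero.comp hu).const_mul Ct
    rw [mul_zero] at h1
    exact h1
  have et2 := ev_lt hexp (show (0 : ℝ) < 1 / 8 by norm_num)
  have hy : Tendsto (fun z : ℝ => (z / 2) ^ e0) atTop atTop :=
    (tendsto_rpow_atTop e0_pos).comp (tendsto_id.atTop_div_const (by norm_num))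
  have hg : Tendsto (fun z : ℝ => ((z / 2) ^ e0) ^ ((9 / 10 : ℝ) / e0) *
      Real.exp (-(1 / 2) * (z / 2) ^ e0)) atTop (𝓝 0) :=
    (tendsto_rpow_mul_exp_neg_mul_atTop_nhds_zero ((9 / 10 : ℝ) / e0) (1 / 2)
      (by norm_num)).comp hy
  have hg' := hg.const_mul (Cb * 2 * 2 ^ (9 / 10 : ℝ))
  rw [mul_zero] at hg'
  have eg1 := ev_lt hg' (show (0 : ℝ) < 1 by norm_num)
  have eg4 : ∀ᶠ z : ℝ in atTop, (4 : ℝ) ≤ (z / 2) ^ e0 := hy.eventually_ge_atTop 4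
  have hall := ((h64.and (hCA.and (hCb.and (e19.and (e320.and e120))))).and
    (et2.and (eg1.and eg4)))
  obtain ⟨C, hC⟩ := eventually_atTop.mp hall
  refine ⟨max C 1, le_max_right _ _, fun z hz => ?_⟩
  obtain ⟨⟨h1, h2, h3, h4, h5, h6⟩, h7, h8, h9⟩ := hC z ((le_max_left _ _).trans hz)
  have hz0 : 0 < z := by linarith
  have hzh : 0 < z / 2 := by linarith
  refine ⟨by linarith, ?_, ?_, ?_, h7, ?_, ?_, by linarith, ?_, h2⟩
  · -- pw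
    have a1 : z ^ (1 / 20 : ℝ) ≤ Real.sqrt z := by
      rw [Real.sqrt_eq_rpow]
      exact Real.rpow_le_rpow_of_exponent_le (by linarith) (by norm_num)
    have a2 : (8 : ℝ) ≤ Real.sqrt z := Real.le_sqrt_of_sq_le (by linarith)
    have a3 : Real.sqrt z * Real.sqrt z = z := Real.mul_self_sqrt hz0.le
    nlinarith
  · rw [eps_eq hz0]; linarith
  · rw [eps_eq hz0]
    have a1 : (K * z ^ (2 / 5 : ℝ)) ^ 2 * (16 * z ^ (-(19 / 20) : ℝ)) =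
        16 * K ^ 2 * z ^ (-(3 / 20) : ℝ) := by
      have a2 : (z ^ (2 / 5 : ℝ)) ^ 2 * z ^ (-(19 / 20) : ℝ) = z ^ (-(3 / 20) : ℝ) := by
        rw [← Real.rpow_natCast, ← Real.rpow_mul hz0.le, ← Real.rpow_add hz0]
        norm_num
      rw [← a2]; ring
    rw [a1]
    have a3 : 16 * K ^ 2 * z ^ (-(3 / 20) : ℝ) ≤ 16 * K ^ 2 * (1 / (128 * K ^ 2)) :=
      mul_le_mul_of_nonneg_left h5 (by positivity)
    have a4 : 16 * K ^ 2 * (1 / (128 * K ^ 2)) = 1 / 8 := by field_simp; norm_num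
    linarith
  · -- g1
    rw [inv_pow hz0]
    have a1 : ((z / 2) ^ e0) ^ ((9 / 10 : ℝ) / e0) = (z / 2) ^ (9 / 10 : ℝ) := by
      rw [← Real.rpow_mul hzh.le]
      congr 1
      rw [mul_div_cancel₀ _ e0_pos.ne']
    have a2 : (2 : ℝ) ^ (9 / 10 : ℝ) * (z / 2) ^ (9 / 10 : ℝ) = z ^ (9 / 10 : ℝ) := by
      rw [← Real.mul_rpow (by norm_num) hzh.le]
      congr 1
      ring
    have a3 : -(1 / 2) * (z / 2) ^ e0 = -((z / 2) ^ e0 / 2) := by ring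
    rw [a1, a3] at h8
    have a4 : Cb * 2 * 2 ^ (9 / 10 : ℝ) * ((z / 2) ^ (9 / 10 : ℝ) *
        Real.exp (-((z / 2) ^ e0 / 2))) =
        2 * z ^ (9 / 10 : ℝ) * (Cb * Real.exp (-((z / 2) ^ e0 / 2))) := by
      rw [← a2]; ring
    rw [a4] at h8
    have a5 : z ^ (-(9 / 10) : ℝ) = 1 / z ^ (9 / 10 : ℝ) := by
      rw [Real.rpow_neg hz0.le, one_div]
    have a6 : 0 < z ^ (9 / 10 : ℝ) := Real.rpow_pos_of_pos hz0 _
    rw [a5, div_div, le_div_iff₀ (by positivity)]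
    linarith
  · -- g2
    rw [inv_pow hz0, eps_eq hz0]
    have a1 : z ^ (-(19 / 20) : ℝ) = z ^ (-(9 / 10) : ℝ) * z ^ (-(1 / 20) : ℝ) := by
      rw [← Real.rpow_add hz0]; norm_num
    have a2 : 0 < z ^ (-(9 / 10) : ℝ) := Real.rpow_pos_of_pos hz0 _
    rw [a1]
    nlinarith
  · -- g4
    have a1 : Real.exp (-((z / 2) ^ e0 / 4)) ≤ Real.exp (-1) :=
      Real.exp_le_exp.mpr (by linarith)
    have a2 : Real.exp (-1) ≤ 1 / 2 := by
      have := Real.exp_neg_one_lt_d9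
      linarith
    exact a1.trans a2

/-- the logarithm near `1` -/
theorem log_sq {x : ℝ} (h : -(1 / 2) ≤ x) : (Real.log (1 + x)) ^ 2 ≤ 4 * x ^ 2 := by
  have h0 : 0 < 1 + x := by linarith
  have h1 : Real.log (1 + x) ≤ x := by
    have := Real.log_le_sub_one_of_pos h0
    linarith
  have h2 : 1 - (1 + x)⁻¹ ≤ Real.log (1 + x) := Real.one_sub_inv_le_log_of_pos h0
  have h3 : 1 - (1 + x)⁻¹ = x / (1 + x) := by field_simp; ring
  rw [h3] at h2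
  rcases le_total 0 x with hx | hx
  · have h4 : 0 ≤ x / (1 + x) := div_nonneg hx h0.le
    nlinarith
  · have h4 : 2 * x ≤ x / (1 + x) := by
      rw [le_div_iff₀ h0]
      nlinarith
    nlinarith

theorem exists_u1 (F u0 : ℝ) : ∃ u1 : ℝ, u0 ≤ u1 ∧
    Real.sqrt F * Real.exp (-(u1 ^ (1 / 10 : ℝ)) / 2) ≤ 1 / 8 := by
  have h1 : Tendsto (fun u : ℝ => u ^ (1 / 10 : ℝ) / 2) atTop atTop :=
    (tendsto_rpow_atTop (by norm_num)).atTop_div_const (by norm_num)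
  have h2 := (Real.tendsto_exp_neg_atTop_nhds_zero.comp h1).const_mul (Real.sqrt F)
  rw [mul_zero] at h2
  have h3 := ev_lt h2 (show (0 : ℝ) < 1 / 8 by norm_num)
  obtain ⟨u, hu1, hu2⟩ := (h3.and (eventually_ge_atTop u0)).exists
  refine ⟨u, hu2, ?_⟩
  have h4 : -(u ^ (1 / 10 : ℝ)) / 2 = -(u ^ (1 / 10 : ℝ) / 2) := by ring
  rw [h4]
  exact hu1

end Pool.Agent.H719.CW
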