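import Mathlib
import Pool.Agent.H964.CW.Stm3
import Pool.Agent.H719.CW.FB1

/-!
# Project CW (helper964): the first block (`S_FB`)
-/

set_option autoImplicit false

open MeasureTheory ProbabilityTheory Filter Finset Topology

namespace Pool.Agent.H719.CW

open Pool.Agent.H964.QC Pool.Agent.H964.CW

theorem RR_zero : RR 0 = 0 := by simp [RR]

theorem RR_mono (hRR : S_RR) {a b : ℕ} (h : a ≤ b) : RR a ≤ RR b := by
  unfold RR
  exact Finset.sum_le_sum_of_subset_of_nonneg (Finset.Icc_subset_Icc_right h)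
    fun i _ _ => (hRR.1 i).le

/-- tail at the point `0` -/
theorem log_RR (hRR : S_RR) (T : ℕ) : Real.log (1 + T) ≤ 4 * RR T := by
  have h := hRR.2.2.2.2.2.1 0 T (Nat.zero_le _)
  rw [RR_zero, Nat.cast_zero, zero_add, div_one, sub_zero] at h
  rw [add_comm]
  linarith

/-- the variance of the first block -/
theorem var_le (hM2 : S_M2) (hRR : S_RR) (hUU : S_UU) (hOV : S_OV)
    {V : Type} [Fintype V] [DecidableEq V] {C0 : ℝ} {N0 : ℕ} (W : Wlk V C0 N0)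
    {Ω : Type} [MeasurableSpace Ω] (P : Measure Ω) [IsProbabilityMeasure P] {s2 κ : ℝ}
    {η : ℕ → V → Ω → ℝ} (hs2 : 0 < s2) (hη : Noise P s2 κ η) {w : V → ℝ} (hw : ∀ x, 0 ≤ w x)
    (hw1 : ∑ x, w x = 1) {T : ℕ} (hT : T ≤ N0) (hR : s2 * RR T ≤ 1 / 2) :
    ∫ ω, (XX W w T (cfg η ω) T) ^ 2 ∂P ≤ 2 * (s2 * RR T) := by
  rw [(hM2 V C0 N0 W Ω P s2 κ η hs2.le hη w hw T hT).2.1]
  have h1 : ∑ m ∈ Icc 1 T, ov W w m * UU s2 (T - m) ≤ ∑ m ∈ Icc 1 T, rr m * 2 := by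
    refine sum_le_sum fun m hm => ?_
    have hm2 := (mem_Icc.mp hm).2
    have a1 : ov W w m ≤ rr m :=
      ((hOV V C0 N0 W w hw).2.2.2.2.2.2.1 hw1).1 m (hm2.trans hT)
    have a2 : s2 * RR (T - m) ≤ 1 / 2 :=
      (mul_le_mul_of_nonneg_left (RR_mono hRR (Nat.sub_le _ _)) hs2.le).trans hR
    obtain ⟨a3, a4⟩ := hUU.1 s2 (T - m) hs2.le (by linarith)
    have a5 : 1 / (1 - s2 * RR (T - m)) ≤ 2 := by
      rw [div_le_iff₀ (by linarith)]
      linarith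
    exact mul_le_mul a1 (a4.trans a5) (by linarith) (hRR.1 m).le
  have h2 : ∑ m ∈ Icc 1 T, rr m * 2 = 2 * RR T := by
    rw [← sum_mul, RR, mul_comm]
  calc s2 * ∑ m ∈ Icc 1 T, ov W w m * UU s2 (T - m) ≤ s2 * ∑ m ∈ Icc 1 T, rr m * 2 :=
        mul_le_mul_of_nonneg_left h1 hs2.le
    _ = 2 * (s2 * RR T) := by rw [h2]; ring

/-- Chebyshev -/
theorem cheb {Ω : Type} [MeasurableSpace Ω] (P : Measure Ω) [IsProbabilityMeasure P] {X : Ω → ℝ}
    (hX : Integrable (fun ω => X ω ^ 2) P) :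
    P.real {ω | X ω < -(1 / 2)} ≤ 4 * ∫ ω, X ω ^ 2 ∂P := by
  have h1 := mul_meas_ge_le_integral_of_nonneg (μ := P) (f := fun ω => X ω ^ 2)
    (Eventually.of_forall fun ω => sq_nonneg (X ω)) hX (1 / 4)
  have h2 : P.real {ω | X ω < -(1 / 2)} ≤ P.real {ω | 1 / 4 ≤ X ω ^ 2} := by
    refine measureReal_mono (fun ω hω => ?_)
    have h3 : X ω < -(1 / 2) := hω
    show (1 / 4 : ℝ) ≤ X ω ^ 2
    nlinarith
  linarith

/-- second moment of the logarithm, abstract form -/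
theorem log_moment (hTLI : S_TLI) : ∃ Ct : ℝ, 1 ≤ Ct ∧
    ∀ (Ω : Type) [MeasurableSpace Ω] (P : Measure Ω) [IsProbabilityMeasure P] (X : Ω → ℝ)
    (v u0 : ℝ), Measurable X → (∀ ω, -1 < X ω) → Integrable (fun ω => X ω ^ 2) P →
    ∫ ω, X ω ^ 2 ∂P ≤ v → MemLp (fun ω => Real.log (1 + X ω)) 4 P → 1 ≤ u0 →
    (∀ u, u0 ≤ u → P.real {ω | 1 + X ω < Real.exp (-u)} ≤ Real.exp (-(u ^ (1 / 10 : ℝ)))) →
    16 * v ≤ 1 / 2 → u0 ^ 2 * (4 * v) ≤ 1 / 8 → Ct * Real.exp (-(u0 ^ (1 / 20 : ℝ))) ≤ 1 / 8 →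
    Sq P (fun ω => Real.log (1 + X ω)) 1 := by
  obtain ⟨Ct, hCt, hT⟩ := hTLI
  refine ⟨Ct, hCt, ?_⟩
  intro Ω _ P _ X v u0 hXm hX1 hXi hv hlog4 hu0 htail h1 h2 h3
  have hlog2 : MemLp (fun ω => Real.log (1 + X ω)) 2 P := hlog4.mono_exponent (by norm_num)
  refine ⟨hlog2, ?_⟩
  set A : Set Ω := {ω | X ω < -(1 / 2)} with hA
  have hAm : MeasurableSet A := hXm measurableSet_Iio
  set Y : Ω → ℝ := fun ω => -Real.log (1 + X ω) with hY
  have hY4 : MemLp Y 4 P := hlog4.neg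
  obtain ⟨u1, hu1, hu1'⟩ := exists_u1 (∫ ω, Y ω ^ 4 ∂P) u0
  have hTL := hT Ω P Y (∫ ω, Y ω ^ 4 ∂P) u0 u1 A hY4 le_rfl hu0 hu1 (fun u hu _ => by
    refine le_trans (measureReal_mono (fun ω hω => ?_)) (htail u hu)
    have h4 : u < -Real.log (1 + X ω) := hω
    have h5 : 0 < 1 + X ω := by linarith [hX1 ω]
    show 1 + X ω < Real.exp (-u)
    rw [← Real.log_lt_iff_lt_exp h5]
    linarith) hAm
  have hPA : P.real A ≤ 4 * v := (cheb P hXi).trans (by linarith)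
  have hYp : MemLp (fun ω => max (Y ω) 0) 2 P := (hlog2.neg).pos_part
  have hYi : Integrable (fun ω => (max (Y ω) 0) ^ 2) P := hYp.integrable_sq
  have hpt : ∀ ω, (Real.log (1 + X ω)) ^ 2 ≤
      4 * X ω ^ 2 + A.indicator (fun ω => (max (Y ω) 0) ^ 2) ω := by
    intro ω
    by_cases hω : ω ∈ A
    · rw [Set.indicator_of_mem hω]
      have h5 : 0 < 1 + X ω := by linarith [hX1 ω]
      have h6 : X ω < -(1 / 2) := hω
      have h7 : Real.log (1 + X ω) ≤ 0 := Real.log_nonpos h5.le (by linarith)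
      have h8 : max (Y ω) 0 = -Real.log (1 + X ω) := max_eq_left (by
        show 0 ≤ -Real.log (1 + X ω)
        linarith)
      rw [h8]
      have := sq_nonneg (X ω)
      nlinarith
    · rw [Set.indicator_of_notMem hω, add_zero]
      exact log_sq (not_lt.mp hω)
  have hint2 : Integrable (fun ω => 4 * X ω ^ 2 + A.indicator (fun ω => (max (Y ω) 0) ^ 2) ω) P :=
    (hXi.const_mul 4).add (hYi.indicator hAm)
  have h4 : ∫ ω, (Real.log (1 + X ω)) ^ 2 ∂P ≤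
      ∫ ω, (4 * X ω ^ 2 + A.indicator (fun ω => (max (Y ω) 0) ^ 2) ω) ∂P :=
    integral_mono hlog2.integrable_sq hint2 hpt
  rw [integral_add (hXi.const_mul 4) (hYi.indicator hAm), integral_const_mul,
    integral_indicator hAm] at h4
  have h5 : u0 ^ 2 * P.real A ≤ u0 ^ 2 * (4 * v) :=
    mul_le_mul_of_nonneg_left hPA (sq_nonneg _)
  linarith

theorem t_FB : S_FB := by
  intro hLTP hAP hTLI hMEAS hM2 hDUAL hRR hUU hOV hBC2 hCLN hIND C0 κ hC0 hκ
  obtain ⟨CL, hCL1, hL⟩ := hLTP.1 C0 hC0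
  obtain ⟨CA, hCA1, hA⟩ := hAP C0 0 hC0 le_rfl
  obtain ⟨Ct, hCt1, hT⟩ := log_moment hTLI
  obtain ⟨Cb, hCb1, hB⟩ := hBC2 hRR hOV hCLN hMEAS hM2 hDUAL C0 κ hC0 hκ
  have hK : (0 : ℝ) < CL * 9 ^ 8 := by positivity
  obtain ⟨C, hC1, hsm⟩ := exists_sm (CL * 9 ^ 8) Ct Cb CA hK
  refine ⟨C, hC1, ?_⟩
  intro N0 M _ W hW Ω _ P _ s2 η T hs2 hs2C hη hcls hRRT hTN
  have hC0' : 0 < C := by linarith
  have hz : C ≤ 1 / s2 := by
    rw [le_div_iff₀ hs2]
    rw [le_div_iff₀ hC0'] at hs2C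
    linarith
  have hS := hsm (1 / s2) hz
  have hs2z : s2 = 1 / (1 / s2) := by rw [one_div_one_div]
  set z : ℝ := 1 / s2 with hzdef
  have hz0 : 0 < z := by positivity
  have hz1 : 1 ≤ z ^ (1 / 20 : ℝ) := Real.one_le_rpow hS.one (by norm_num)
  have hNs : Noise P s2 κ η := hη.1
  set w : ZMod M × ZMod M → ℝ := fun x => if x = 0 then 1 else 0 with hw
  have hw0 : ∀ x, 0 ≤ w x := by
    intro x
    simp only [hw]
    split_ifs <;> norm_num
  have hw1 : ∑ x, w x = 1 := by simp [hw]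
  have hwn : ∀ x, w x ≠ 0 → x = 0 := by
    intro x hx
    by_contra h
    exact hx (by simp [hw, h])
  have hwZ : ∀ f : ZMod M × ZMod M → ℝ, ∑ x, w x * f x = f 0 := by
    intro f
    simp [hw]
  -- the partition function
  have hXZ : ∀ x : ℕ → ZMod M × ZMod M → ℝ, 1 + XX W w T x T = Zr W x T 0 := by
    intro x
    rw [(hDUAL (ZMod M × ZMod M) C0 N0 W x w 0 T).2.2.1, hwZ, hw1]
    ring
  have hME := hMEAS (ZMod M × ZMod M) C0 N0 W Ω P s2 κ η hNs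
  have hZpos : ∀ ω, 0 < Zr W (cfg η ω) T 0 := fun ω =>
    hME.2.1 (cfg η ω) T 0 (fun n v => hNs.gt n v ω)
  have hZm : Measurable (fun ω => Zr W (cfg η ω) T 0) :=
    (hME.2.2.2.1 T 0).comp hME.2.2.2.2.2.2.1
  have hZ4 : MemLp (fun ω => Zr W (cfg η ω) T 0) 4 P := hME.2.2.2.2.2.2.2.1 T 0
  have hXe : (fun ω => XX W w T (cfg η ω) T) = fun ω => Zr W (cfg η ω) T 0 - 1 := by
    funext ω
    rw [← hXZ]; ring
  have hXm : Measurable (fun ω => XX W w T (cfg η ω) T) := by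
    rw [hXe]; exact hZm.sub_const 1
  have hX2 : MemLp (fun ω => XX W w T (cfg η ω) T) 2 P := by
    rw [hXe]
    exact (hZ4.mono_exponent (by norm_num)).sub (memLp_const 1)
  have hXi : Integrable (fun ω => (XX W w T (cfg η ω) T) ^ 2) P := hX2.integrable_sq
  have hX1 : ∀ ω, -1 < XX W w T (cfg η ω) T := by
    intro ω
    have := hZpos ω
    rw [← hXZ] at this
    linarith
  -- the variance
  have hTN' : T ≤ N0 := by omega
  have hRle : RR T ≤ z / 4 := hRRT.trans hS.pw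
  have hs2R : s2 * RR T ≤ 1 / 4 := by
    have h1 := mul_le_mul_of_nonneg_left hRle hs2.le
    have h2 : s2 * (z / 4) = 1 / 4 := by rw [hzdef]; field_simp
    linarith
  have hR0 : 0 ≤ RR T := by
    have := RR_mono hRR (Nat.zero_le T)
    rwa [RR_zero] at this
  set ε : ℝ := 1 / z * z ^ (1 / 20 : ℝ) with hε
  have hs2e : s2 * RR T ≤ 2 * ε := by
    have h1 : RR T ≤ 2 * z ^ (1 / 20 : ℝ) := by linarith
    have h2 := mul_le_mul_of_nonneg_left h1 hs2.le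
    rw [hε, ← hs2z]
    linarith
  have hvar : ∫ ω, (XX W w T (cfg η ω) T) ^ 2 ∂P ≤ 4 * ε := by
    have := var_le hM2 hRR hUU hOV W P hs2 hNs hw0 hw1 hTN' (by linarith)
    linarith
  have hPA : P.real {ω | XX W w T (cfg η ω) T < -(1 / 2)} ≤ 16 * ε := by
    have := cheb P hXi
    linarith
  have hX10 : |X1 (0 : ZMod M × ZMod M)| ≤ ((0 : ℕ) : ℤ) := by simp [X1]
  have hX20 : |X2 (0 : ZMod M × ZMod M)| ≤ ((0 : ℕ) : ℤ) := by simp [X2]
  -- the logarithm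
  have hlgeq : (fun ω => lgX W T w (cfg η ω)) = fun ω => Real.log (1 + XX W w T (cfg η ω) T) := rfl
  have hlgZ : (fun ω => lgZ W T w (cfg η ω)) = fun ω => Real.log (1 + XX W w T (cfg η ω) T) := by
    funext ω
    rw [hXZ]
    simp only [lgZ]
    rw [hwZ]
  have hAp := hA N0 M W hW Ω P s2 κ η w 0 T hs2 (by
    rw [hs2z]
    exact one_div_le_one_div_of_le (by linarith) hS.ca) hη hw0 hw1 (fun x hx => by
      rw [hwn x hx]; exact ⟨hX10, hX20⟩) (by omega) (by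
      have h1 : RR T ≤ z := by linarith
      linarith)
  rw [hlgZ] at hAp
  set u0 : ℝ := CL * 9 ^ 8 * z ^ (2 / 5 : ℝ) with hu0
  have hz25 : 1 ≤ z ^ (2 / 5 : ℝ) := Real.one_le_rpow hS.one (by norm_num)
  have hu01 : 1 ≤ u0 := by
    have h1 : (1 : ℝ) ≤ CL * 9 ^ 8 := by nlinarith
    rw [hu0]
    nlinarith
  have hu0' : CL * (1 + Real.log (1 + T)) ^ 8 ≤ u0 := by
    have h1 : 1 + Real.log (1 + T) ≤ 9 * z ^ (1 / 20 : ℝ) := by
      have := log_RR hRR T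
      linarith
    have h2 : 0 ≤ 1 + Real.log (1 + (T : ℝ)) := by
      have : 0 ≤ Real.log (1 + (T : ℝ)) := Real.log_nonneg (by
        have : (0 : ℝ) ≤ T := Nat.cast_nonneg T
        linarith)
      linarith
    have h3 : (1 + Real.log (1 + (T : ℝ))) ^ 8 ≤ (9 * z ^ (1 / 20 : ℝ)) ^ 8 :=
      pow_le_pow_left₀ h2 h1 8
    have h4 : (9 * z ^ (1 / 20 : ℝ)) ^ 8 = 9 ^ 8 * z ^ (2 / 5 : ℝ) := by
      rw [mul_pow]
      congr 1
      rw [← Real.rpow_natCast, ← Real.rpow_mul hz0.le]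
      norm_num
    rw [h4] at h3
    have h5 := mul_le_mul_of_nonneg_left h3 (by linarith : 0 ≤ CL)
    rw [hu0]
    linarith
  have hsq : Sq P (fun ω => lgX W T w (cfg η ω)) 1 := by
    rw [hlgeq]
    refine hT Ω P (fun ω => XX W w T (cfg η ω) T) (4 * ε) u0 hXm hX1 hXi hvar hAp.1 hu01
      (fun u hu => ?_) ?_ ?_ hS.t2
    · have h1 := hL N0 M W hW Ω P s2 κ η 0 0 T u hs2 hη hX10 hX20 (by omega) hs2R (hu0'.trans hu)
      refine le_trans (measureReal_mono (fun ω hω => ?_)) h1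
      have h2 : 1 + XX W w T (cfg η ω) T < Real.exp (-u) := hω
      rw [hXZ] at h2
      exact h2
    · have := hS.v
      linarith
    · have h1 := hS.t1
      have h2 : u0 ^ 2 * (4 * (4 * ε)) = u0 ^ 2 * (16 * ε) := by ring
      rw [h2]
      exact h1
  refine ⟨hsq, fun hRT => ?_⟩
  -- goodness
  have hT1 : 1 ≤ T := by
    rcases Nat.eq_zero_or_pos T with h | h
    · rw [h, RR_zero] at hRT
      linarith
    · exact h
  set L' : ℝ := z - RR T with hL'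
  have hL'z : z / 2 ≤ L' := by rw [hL']; linarith
  have hL'0 : 0 < L' := by linarith
  have hpz : (z / 2) ^ e0 ≤ L' ^ e0 :=
    Real.rpow_le_rpow (by linarith) hL'z e0_pos.le
  have hd : W.d 0 = 0 := by
    rw [hW.d_eq]
    simp
  have h0T : (0 + T : ℕ) = T := Nat.zero_add T
  have hovs : ∑ m ∈ Icc 1 T, ov W w m ≤ L' := by
    have h1 : ∑ m ∈ Icc 1 T, ov W w m ≤ RR T := by
      refine sum_le_sum fun m hm => ?_
      exact ((hOV _ C0 N0 W w hw0).2.2.2.2.2.2.1 hw1).1 m ((mem_Icc.mp hm).2.trans hTN')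
    linarith
  have hBC := hB (ZMod M × ZMod M) N0 W Ω P s2 η w 0 T L' (Real.exp (L' ^ e0))
    (Real.exp (-(L' ^ e0 / 4))) hs2 hNs hT1 (Nat.zero_le _) (by omega) (by rw [h0T, hL'])
    (hS.g3.trans hL'z) (Real.one_le_exp (Real.rpow_nonneg hL'0.le _)) (Real.exp_pos _)
    (Real.exp_le_one_iff.mpr (by
      have := Real.rpow_nonneg hL'0.le e0
      linarith)) hw0 hw1 (fun x hx => by rw [hwn x hx]; exact hcls) (by
      rw [hwZ, hd]; exact Nat.cast_nonneg _) hovs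
  rw [h0T] at hBC
  have hfin1 : Cb / (Real.exp (L' ^ e0) * Real.exp (-(L' ^ e0 / 4)) ^ 2) ≤
      s2 ^ (9 / 10 : ℝ) / 2 := by
    have h1 : Real.exp (L' ^ e0) * Real.exp (-(L' ^ e0 / 4)) ^ 2 = Real.exp (L' ^ e0 / 2) := by
      rw [← Real.exp_nat_mul, ← Real.exp_add]
      congr 1
      push_cast
      ring
    rw [h1, div_eq_mul_inv, ← Real.exp_neg]
    have h2 : Real.exp (-(L' ^ e0 / 2)) ≤ Real.exp (-((z / 2) ^ e0 / 2)) :=
      Real.exp_le_exp.mpr (by linarith)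
    have h3 := hS.g1
    rw [← hs2z] at h3
    exact (mul_le_mul_of_nonneg_left h2 (by linarith)).trans h3
  have hfin2 : P.real {ω | 1 + XX W w T (cfg η ω) T < Real.exp (-(L' ^ e0 / 4))} ≤
      s2 ^ (9 / 10 : ℝ) / 2 := by
    have h1 : Real.exp (-(L' ^ e0 / 4)) ≤ 1 / 2 :=
      (Real.exp_le_exp.mpr (by linarith)).trans hS.g4
    have h2 : P.real {ω | 1 + XX W w T (cfg η ω) T < Real.exp (-(L' ^ e0 / 4))} ≤
        P.real {ω | XX W w T (cfg η ω) T < -(1 / 2)} := by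
      refine measureReal_mono (fun ω hω => ?_)
      have h3 : 1 + XX W w T (cfg η ω) T < Real.exp (-(L' ^ e0 / 4)) := hω
      show XX W w T (cfg η ω) T < -(1 / 2)
      linarith
    have h4 := hS.g2
    have h5 := hPA
    rw [← hs2z] at h4
    rw [hε, ← hs2z] at h5
    linarith
  have hset : {ω | ¬ Good W T (Real.exp (L' ^ e0)) (nw W T w (cfg η ω))} =
      {ω | ¬ Good W T (Real.exp (L' ^ e0))
        (fun z => fwd W (cfg η ω) T w z / ∑ x, fwd W (cfg η ω) T w x)} := rfl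
  rw [hset]
  linarith

end Pool.Agent.H719.CW
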